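import Pool.Agent.MWHP.StmtsP
import Pool.Agent.MWS.StmtsW

/-!
# Block MWBN: classes with `xyx ≈ x^(n+1) y x^(n+1)`, arbitrary period (rows)

Period `n` twin of block MWS, part W (`MWS/StmtsW.lean`, table mws, column path: the proofs for `n = 1`).
Every row: file `Pool/Agent/HelperNN_MWBN/XXX.lean`, import `Pool.Agent.MWBN.Stmts`, namespace
`Pool.Agent.MWBN.HNN`, theorem `xxx (hypotheses = rows in uses, in this order) : XxxStmt`.
Rows `MWHP.MASN`, `MWHP.LRNN`, `MWHP.JPIN`, `MWHP.TLMN` are `MWHP.MasnStmt` etc. in `MWHP/StmtsP.lean`.  From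
`MWS/StmtsW.lean` are used: `VisOk`, `VW`, `VB`, `cb`, `edg`, `TE`, `hv` (the edges `0²1² | 0101` with squares in the
other blocks; residues do not matter).
-/

namespace Pool.Agent.MWBN

open Pool.Agent.Helper14_MV Pool.Agent.Helper2_MV Pool.Agent.MVO Pool.Agent.MWL Pool.Agent.MWS

/-- the base with `xyx ≈ x^(n+1) y x^(n+1)` -/
structure ClXn (n : ℕ) (β : FIC) : Prop extends MWHP.BasN n β where
  be : RR β [0, 1, 0] (List.replicate (n + 1) 0 ++ 1 :: List.replicate (n + 1) 0)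

/-- the same letters with the same residues in every block -/
def SmN (n k : ℕ) (B B' : ℕ → List ℕ) : Prop :=
  ∀ j ≤ k, ∀ c, (c ∈ B j ↔ c ∈ B' j) ∧ (B j).count c ≡ (B' j).count c [MOD n]

/-- a class of this kind with the visibility relation `V` -/
structure ClVn (n : ℕ) (V : ℕ → (ℕ → ℕ) → (ℕ → ℕ) → ℕ → Prop) (β : FIC) : Prop
    extends ClXn n β where
  xch : ∀ θ : FIC, β ≤ θ → ∀ (k : ℕ) (C : ℕ → List ℕ), OkB k C → ∀ i ≤ k, ∀ (A D : List ℕ) (x y : ℕ),
    C i = A ++ x :: y :: D → x ≠ y → x ∈ A → x ∉ D → y ∉ A → y ∈ D →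
      (¬ V k (ty C x) (ty C y) i ∨ TE θ k (ty C x) (ty C y) i) →
        RR θ (asm k C) (asm k (Function.update C i (A ++ y :: x :: D)))

/-- the class W: `xyxy ≈ yxxy ≈ xyyx`, `x y² t x ≈ x y² x^n t x` -/
structure ClW (n : ℕ) (β : FIC) : Prop where
  pos : 1 ≤ n
  ap : RR β [0, 0] (List.replicate (n + 2) 0)
  be : RR β [0, 1, 0] (List.replicate (n + 1) 0 ++ 1 :: List.replicate (n + 1) 0)
  f0 : RR β [0, 1, 0, 1] [1, 0, 0, 1]
  f1 : RR β [0, 1, 0, 1] [0, 1, 1, 0]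
  e0 : RR β [0, 1, 1, 2, 0] ([0, 1, 1] ++ (List.replicate n 0 ++ [2, 0]))

/-- the class B: interior occurrences are free, and two letters commute if both are in a factor of
multiple letters in another place of the word -/
structure ClB (n : ℕ) (β : FIC) : Prop where
  pos : 1 ≤ n
  ap : RR β [0, 0] (List.replicate (n + 2) 0)
  be : RR β [0, 1, 0] (List.replicate (n + 1) 0 ++ 1 :: List.replicate (n + 1) 0)
  itn : MWHP.ItN n β
  dd : ∀ (p q : List ℕ) (x y : ℕ) (c : List ℕ),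
    ((∃ r s, p = r ++ c ++ s) ∨ (∃ r s, q = r ++ c ++ s)) → x ∈ c → y ∈ c →
      (∀ z ∈ c, 2 ≤ (p ++ x :: y :: q).count z) → RR β (p ++ x :: y :: q) (p ++ y :: x :: q)

/-! ### basic facts -/

/-- **IDN** (uses nothing).  An occurrence of a multiple letter can be raised to `x^(nm+1)`.
PROOF.  Powers: `RR β (0^p) (0^q)` for `p, q ≥ 2`, `p ≡ q [MOD n]` (append to `ap`, induction; this is proved in
`Helper85_MWA/HAP.lean`, `rep_mod`).  Let `x ∈ q`, `q = q1 ++ x :: q2`.  `be` with `0 ↦ [x]`, `1 ↦ q1`: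
(*) `x q1 x ≈ x^(n+1) q1 x^(n+1)`.  Prepend `x^(nm)`: `x^(nm+1) q1 x ≈ x^(nm+n+1) q1 x^(n+1) ≈ x^(n+1) q1 x^(n+1) ≈
x q1 x` (`nm + n + 1 ≡ n + 1`, both `≥ 2`; then (*)).  `x ∈ p`: mirror image. -/
def IdnStmt : Prop :=
  ∀ (n : ℕ) (β : FIC), 1 ≤ n → RR β [0, 0] (List.replicate (n + 2) 0) →
    RR β [0, 1, 0] (List.replicate (n + 1) 0 ++ 1 :: List.replicate (n + 1) 0) →
      ∀ (p q : List ℕ) (x : ℕ), (x ∈ p ∨ x ∈ q) → ∀ m : ℕ,
        RR β (p ++ x :: q) (p ++ (List.replicate (n * m + 1) x ++ q))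

/-- **CPF** (uses nothing).  `CapP` from `xyxy ≈ yxxy ≈ xyyx`.
PROOF.  Let `θ ≥ β`, `NC2 θ`, `RR θ u v`, `min p 2 ≠ min q 2` for `p = u.count c`, `q = v.count c`; by symmetry `p ≤ 1`,
`p < q`.  Filter to `c`, rename: `RR θ (0^p) (0^q)`; if `p = 0` append `[0]`.  So `RR θ [0] (0^m)` with `m ≥ 2`.
Let `w^m` be the `m`-fold product.  Claim `(01)^(m+1) ≈ (10)^(m+1)` for `m ≥ 1`: by `f0` the first `m` factors
`01` are changed to `10` one after the other from the left (`(10)^j (01) (01) .. ≈ (10)^j (10) (01) ..`), then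
the last factor by `f1` with the letters exchanged (`[1,0,1,0] ≈ [1,0,0,1]`).  `0 ↦ [0,1]` and `0 ↦ [1,0]` in
`RR θ [0] (0^m)`: `[0,1] ~ (01)^m ≈ (10)^m ~ [1,0]`, a contradiction to `NC2 θ`.  (The same proof as the row CPH of
MWHP.) -/
def CpfStmt : Prop :=
  ∀ β : FIC, RR β [0, 1, 0, 1] [1, 0, 0, 1] → RR β [0, 1, 0, 1] [0, 1, 1, 0] → MWA.CapP β

/-- **DBN** (uses MWS.BLR, IDN).  All letters can be raised to the power `n + 1`.
PROOF.  As MWS.DBX.  MWS.BLR: in the block `m ≤ k`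
raise the letters of `B m` one after the other (induction on the list `B m = U ++ V`: the block
`U.flatMap (fun c => replicate (n+1) c) ++ V`), each time IDN with `m = 1`; the letter occurs elsewhere in the word
since it occurs at least twice in `asm k B` (`Mlt`, `count_asm`, `asm_split`) and raising does not decrease
counts.  Counts are multiplied by `n + 1`; `Bef` does not change: `¬ Bef l x y ↔ [y, x] <+ l` (`x ≠ y`), or induction on
`l`. -/
def DbnStmt : Prop :=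
  ∀ (n : ℕ) (β : FIC), ClXn n β → ∀ (k : ℕ) (B : ℕ → List ℕ), OkB k B →
    RR β (asm k B) (asm k (fun j => (B j).flatMap (fun c => List.replicate (n + 1) c))) ∧
    OkB k (fun j => (B j).flatMap (fun c => List.replicate (n + 1) c)) ∧
    (∀ j c, ((B j).flatMap (fun c => List.replicate (n + 1) c)).count c = (n + 1) * (B j).count c) ∧
    ∀ j x y, x ≠ y →
      (Bef ((B j).flatMap (fun c => List.replicate (n + 1) c)) x y ↔ Bef (B j) x y)

/-! ### the general theorem for a visibility relation -/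

/-- **NFN** (uses MWHP.MASN, DBN).  Normal form: the letters of the blocks, their residues and the visible
facts determine the word.
PROOF.  As MWS.NFV.  Let `Bd`, `Bd'` be the raised families (DBN); it is enough to relate them.
`MWHP.EqT n k Bd Bd'`: the counts are `(n+1) p`, `(n+1) q` with `p = 0 ↔ q = 0`, `p ≡ q`; if `p, q ≥ 1` both are
`≥ n + 1 ≥ 2` and congruent (`SmN`; letters outside the blocks have count `0`).  MASN.  Let `C` be as in its
hypothesis: `C i = A ++ x :: y :: D`, `x ∉ D`, `y ∉ A`, and `Bef (Bd i) x y`, `Bef (Bd' i) x y` are different, so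
`Bef (B i) x y`, `Bef (B' i) x y` are different.  `EqT n k Bd C`: every letter occurs in every block of `C` either not
or at least twice, and exactly in the blocks where it occurs in `B`.  So `x ∈ A`, `y ∈ D`.  If
`V k (ty B x) (ty B y) i`: by hypothesis `TE θ k (ty B x) (ty B y) i`, and `TE` only depends on the supports on `0..k`
(`hv`, `asm_congr`), so `TE θ k (ty C x) (ty C y) i`.  If not, then `¬ V k (ty C x) (ty C y) i` by `VisOk.ext`.
Apply `xch`. -/
def NfnStmt : Prop :=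
  ∀ (n : ℕ) (V : ℕ → (ℕ → ℕ) → (ℕ → ℕ) → ℕ → Prop) (β θ : FIC), VisOk V → ClVn n V β → β ≤ θ →
    ∀ (k : ℕ) (B B' : ℕ → List ℕ), OkB k B → OkB k B' → SmN n k B B' →
      (∀ (x y i : ℕ), x ≠ y → V k (ty B x) (ty B y) i → ¬ (Bef (B i) x y ↔ Bef (B' i) x y) →
        TE θ k (ty B x) (ty B y) i) → RR θ (asm k B) (asm k B')

/-- **TEN** (uses NFN).  The orders in the other blocks of an edge do not matter.
PROOF.  As MWS.TEV (the counts in both words are literally equal: `SmN`). -/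
def TenStmt : Prop :=
  ∀ (n : ℕ) (V : ℕ → (ℕ → ℕ) → (ℕ → ℕ) → ℕ → Prop) (β θ : FIC), VisOk V → ClVn n V β → β ≤ θ →
    ∀ (k : ℕ) (a b : ℕ → ℕ) (i : ℕ), V k a b i → ∀ e : ℕ → Bool,
      RR θ (edg k a b e i).1 (edg k a b e i).2 → TE θ k a b i

/-- **TWN** (uses NFN).  A visible difference gives the edge.
PROOF.  Let `a = ty B 0`, `b = ty B 1`, `u j := if a j = 0 then 0 else (n - 1) * a j + 2` and
`v j := if b j = 0 then 0 else (n - 1) * b j + 2`, so `a j + u j ≡ 2` if `a j ≠ 0` (`a j + u j = n * a j + 2`).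
`rr_ins'` with `P i = 0^(u i)`, `Q i = 1^(v i)` and `P j = []`, `Q j = 0^(u j) ++ 1^(v j)` for `j ≠ i`:
`RR θ (asm k C) (asm k C')` with `C j = P j ++ B j ++ Q j`, `C' j = P j ++ B' j ++ Q j`.  Let `e` be any.  Claim:
`RR β (asm k C) (asm k (cb a b e i [0,0,1,1]))` and `RR β (asm k C') (asm k (cb a b e i [0,1,0,1]))`.  NFN for
`θ = β`: the letters of the blocks are the same (`SmN n k B B'`), all counts are `0` or `≡ 2` (for `C'`:
`(B' j).count 0 ≡ (B j).count 0`).  The condition: let `x ≠ y` and `V k (ty C x) (ty C y) j`; both letters occur, so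
`{x, y} = {0, 1}`; the supports are those of `a`, `b`, so `V k a b j` or `V k b a j`, hence `j = i` by `uni`, `unj`.
Facts in block `i`: `Bef (C i) 0 1` and `Bef [0,0,1,1] 0 1` are true; `Bef (C i) 1 0`, `Bef [0,0,1,1] 1 0` are false (the
block `C i` starts with `0` and ends with `1`); `Bef (C' i) 0 1`, `Bef [0,1,0,1] 0 1` are false, and
`Bef (C' i) 1 0`, `Bef [0,1,0,1] 1 0` are false. -/
def TwnStmt : Prop :=
  ∀ (n : ℕ) (V : ℕ → (ℕ → ℕ) → (ℕ → ℕ) → ℕ → Prop) (β θ : FIC), VisOk V → ClVn n V β → β ≤ θ →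
    ∀ (k : ℕ) (B B' : ℕ → List ℕ), OkB k B → OkB k B' → Two01 k B → Two01 k B' → SmN n k B B' →
      ∀ i, V k (ty B 0) (ty B 1) i → RR θ (asm k B) (asm k B') → Bef (B i) 0 1 → ¬ Bef (B' i) 0 1 →
        TE θ k (ty B 0) (ty B 1) i

/-- **SWN** (uses MWS.BFR, NFN, TWN).  PROOF.  As MWS.SWV.  `EqT n k B B'` gives `SmN n k B B'` (equal counts, or
both `≥ 2` and congruent; letters which are simple do not occur in the blocks). -/
def SwnStmt : Prop :=
  ∀ (n : ℕ) (V : ℕ → (ℕ → ℕ) → (ℕ → ℕ) → ℕ → Prop) (β : FIC), VisOk V → ClVn n V β → MWHP.SWPn n β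

/-- **FEN** (uses NFN).  The bit `F` gives an edge if `y` occurs before block `i` or `x` behind it.
PROOF.  `Has n (FC.ofFIC θ) Bit.F` is `RR θ [0,0,2,3,0,0] ([0,0,2] ++ 0^(2n) ++ [3,0,0])` (the words `mw 2 (v3 2 0 2)`,
`mw 2 (ad n (v3 2 0 2) 1)`).  Fix `e`; the words are `p ++ [0,0,1,1] ++ q` and `p ++ [0,1,0,1] ++ q` with
`p = pre .. i`, `q = suf .. i (k-i)` (`asm_split`; `cb` at `i`).  First case: `b j ≠ 0`, `j < i`: the block `j` contains
`[1, 1]` as a factor, so `p = p1 ++ [1,1] ++ p2`.  The bit with `0 ↦ [1]`, `2 ↦ p2 ++ [0]`, `3 ↦ [0]`: the first word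
is `~ p ++ [0] ++ 1^(2n) ++ [0,1,1] ++ q` in `θ`.  This word and the second one are `RR β` by NFN (`θ = β`; they only
differ in block `i`; the counts there are `2, 2n + 2` and `2, 2`; a visible pair is `(0,1)` or `(1,0)`, in block `i`
by `V k a b i`, `uni`, `unj`; `Bef _ 0 1` and `Bef _ 1 0` are false in both blocks).  Second case: `a j ≠ 0`,
`i < j ≤ k`: `q = q1 ++ [0,0] ++ q2`; the bit with `0 ↦ [0]`, `2 ↦ [1]`, `3 ↦ [1] ++ q1`: the first word is
`~ p ++ [0,0,1] ++ 0^(2n) ++ [1] ++ q`, and NFN as before. -/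
def FenStmt : Prop :=
  ∀ (n : ℕ) (V : ℕ → (ℕ → ℕ) → (ℕ → ℕ) → ℕ → Prop) (β θ : FIC), VisOk V → ClVn n V β → β ≤ θ →
    Has n (FC.ofFIC θ) Bit.F → ∀ (k : ℕ) (a b : ℕ → ℕ) (i : ℕ), V k a b i →
      ((∃ j < i, b j ≠ 0) ∨ ∃ j, i < j ∧ j ≤ k ∧ a j ≠ 0) → TE θ k a b i

/-- **SPN** (uses MWL.KEY, MWL.ARR, MWL.TA1, MWL.TA2).  A change of a support gives `F`.
PROOF.  As MWS.SPF with `n` in place of `1`. -/
def SpnStmt : Prop :=
  ∀ (n : ℕ) (R : FC), LR n R → ND R → ∀ (k : ℕ) (a a' : ℕ → ℕ) (i : ℕ), i ≤ k → 2 ≤ deg k a →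
    R.R k a a' → a i = 0 → a' i ≠ 0 → Has n R Bit.F

/-- **TCB** (uses MWS.BLR, MWS.CHK, IDN).  Change of the residues of a letter with a one letter identity.
PROOF.  Let `a = ty C x`, `d j := if a j = 0 then 0 else (n - 1) * a j + 1`, so `a j + d j = n * a j + 1` and
`L1 θ k (a + d) (c' + d)` (`FC.add`).  For `a j ≠ 0` write `C j = P j ++ x :: Q j`, otherwise `P j = C j`, `Q j = []`.
`C1 j := P j ++ x^(a j + d j) ++ Q j` for `a j ≠ 0` (`C j` otherwise): `RR β (asm k C) (asm k C1)` by IDN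
(`m = a j`) in all blocks one after the other (BLR; `x` is multiple in the word).
`C2 j := P j ++ x^(c' j + d j) ++ Q j` (also for `a j = 0`: then `c' j + d j = 0`).  `rr_ins` for
`mw k (a + d)`, `mw k (c' + d)` with `h 0 = [x]` (MWS.CHK): `RR θ (asm k C1) (asm k C2)`.  `C' := C2`: the
count of `x` in block `j` is `(a j - 1) + c' j + (n - 1) * a j + 1 = n * a j + c' j ≡ c' j` for `a j ≠ 0`, and `x ∈ C2 j`
(`d j ≥ 1`).  The other counts do not change; `Bef` does not change (one occurrence is replaced by a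
positive number of occurrences).  `OkB k C2`: the counts of `x` in the blocks where it occurs: if `x` occurs in
two blocks, its degree is `≥ 2`; if it occurs in one block `j` only, then `a j ≥ 2` (`Mlt`) and the new count is
`≥ (a j - 1) + 1 + c' j ≥ 2`. -/
def TcbStmt : Prop :=
  ∀ (n : ℕ) (β θ : FIC), ClXn n β → β ≤ θ → ∀ (k : ℕ) (C : ℕ → List ℕ), OkB k C → ∀ x, NS k x →
    ∀ c' : ℕ → ℕ, L1 θ k (ty C x) c' → (∀ j ≤ k, (ty C x j = 0 ↔ c' j = 0)) →
      ∃ C' : ℕ → List ℕ, OkB k C' ∧ RR θ (asm k C) (asm k C') ∧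
        (∀ j ≤ k, ((C' j).count x = 0 ↔ c' j = 0) ∧ (C' j).count x ≡ c' j [MOD n]) ∧
        (∀ j ≤ k, ∀ d, d ≠ x → (C' j).count d = (C j).count d) ∧
        ∀ j ≤ k, ∀ c d, c ≠ d → (Bef (C j) c d ↔ Bef (C' j) c d)

/-- **JPN** (uses MVO.ONE, MWA.NDQ, MWHP.LRNN, MWHP.JPIN, NFN, TEN, TWN, FEN, SPN, TCB).  The edges are
join prime.
PROOF.  JPIN for `B0 = cb a b e i [0,0,1,1]`, `B1 = cb a b e i [0,1,0,1]` (both `OkB`, letters 0, 1).
CASE 1: `b j ≠ 0` for some `j < i`, or `a j ≠ 0` for some `i < j ≤ k`.  `A B` := (for all `j ≤ k`: `0 ∈ B j ↔ a j ≠ 0`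
and `1 ∈ B j ↔ b j ≠ 0`) and `Bef (B i) 0 1`.  Closure: let `θ` not contain the edge, `RR θ (asm k B) (asm k B')`,
`A B`.  `Has n (FC.ofFIC θ) Bit.F` is false, otherwise FEN gives the edge.  By ONE
`L1 θ k (ty B c) (ty B' c)` for `c = 0, 1`; the degrees are `≥ 2` (`OkB`; `a i, b i ≠ 0` by `mem`); SPN (`LR n` by
LRNN, `ND` by NDQ with `BasN.cap`; also for the pair `(B', B)`; if `c` did not occur in `B'` then `ND` gives a
contradiction) shows that the supports of `ty B c`, `ty B' c` on `0..k` are equal.  Suppose `Bef (B' i) 0 1` is false.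
TCB for `B'`, `x = 0`, `c' = ty B 0` (`L1 θ k (ty B' 0) (ty B 0)`), then for the result, `x = 1`, `c' = ty B 1`
(`L1 θ` for the letter `1` by ONE): a family `B''` with `RR θ (asm k B') (asm k B'')`, `SmN n k B B''` (letters 0, 1
only: the other counts do not change) and the facts of `B'`.  TWN for `B`, `B''` (`V k (ty B 0) (ty B 1) i` by
`ext`) gives `TE θ k (ty B 0) (ty B 1) i`, which is `TE θ k a b i` (only supports matter), so the edge is in `θ`, a
contradiction.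
CASE 2: `b j = 0` for all `j < i` and `a j = 0` for all `i < j ≤ k`.  Let `g w := w.filter (fun c => decide (c < 2))`.
`A B` := `0 ∈ asm k B`, `1 ∈ asm k B` and `Bef (g (asm k B)) 0 1`.  `A B0`: `g (asm k B0)` is the concatenation of the
blocks; no `0` behind block `i`, no `1` before block `i`.  `¬ A B1`.  Closure: let
`RR θ (asm k B) (asm k B')`, `A B`; the letters 0, 1 occur in `asm k B'` at least twice by `BasN.cap`.  Suppose
`Bef (g (asm k B')) 0 1` is false.  `RR θ w w'` for `w = g (asm k B)`, `w' = g (asm k B')` (`RR.filter`).  Let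
`p, q` be the counts of `0, 1` in `w`, `u = (n-1) p + 2`, `v = (n-1) q + 2`; multiply with `0^u` from the left and
`1^v` from the right.  NFN for `θ = β`, `k = 0` (`asm 0 B = B 0`; `V 0 a' b' 0` or nothing visible):
`0^u ++ w ++ 1^v ≈ [0,0,1,1]` (counts `n p + 2`, `n q + 2`).  `0^u ++ w' ++ 1^v`: TCB with `k = 0` twice (`L1 θ 0` of the
counts from `RR θ (0^u ++ w ++ 1^v) (0^u ++ w' ++ 1^v)` by filtering, ONE) changes the counts to `≡ 2, 2` and
keeps the facts; the result is `≈ [0,1,0,1]` by NFN.  So `RR θ [0,0,1,1] [0,1,0,1]`, and with the context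
(`asm_split`, `RR.append`) the edge is in `θ`, a contradiction. -/
def JpnStmt : Prop :=
  ∀ (n : ℕ) (V : ℕ → (ℕ → ℕ) → (ℕ → ℕ) → ℕ → Prop) (β : FIC), VisOk V → ClVn n V β →
    ∀ (k : ℕ) (a b : ℕ → ℕ) (e : ℕ → Bool) (i : ℕ), V k a b i → JPp β (edg k a b e i)

/-- **EDN** (uses NFN, TEN, TWN, JPN).  PROOF.  As MWS.EDV, with `EqT` for `Shp` (it gives `SmN`). -/
def EdnStmt : Prop :=
  ∀ (n : ℕ) (V : ℕ → (ℕ → ℕ) → (ℕ → ℕ) → ℕ → Prop) (β : FIC), VisOk V → ClVn n V β → MWHP.EdgeN n β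

/-- **DSN** (uses MWHP.TLMN, SWN, EDN).  PROOF.  TLMN with SWN, EDN (`BasN` from `ClXn`). -/
def DsnStmt : Prop :=
  ∀ (n : ℕ) (V : ℕ → (ℕ → ℕ) → (ℕ → ℕ) → ℕ → Prop) (β : FIC), VisOk V → ClVn n V β → DistF β

/-! ### the class W -/

/-- **EWN** (uses IDN).  `p a b q ≈ p a b a^n q` if `a ∈ q` and `b` is multiple.
PROOF.  `a = b`: `p a a q ≈ p a a^(n+1) q` by IDN (`m = 1`).  Let `a ≠ b`.  RULE (I): `p a w w q ≈ p a w w a^n q` for
every word `w` and `a ∈ q`: `q = q1 ++ a :: q2`, `e0` with `0 ↦ [a]`, `1 ↦ w`, `2 ↦ q1`.  `ic`: `XYXY ≈ YXYX` for all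
words (`f0`, and `f1` with the letters exchanged).  CLAIM: for all `r`: `p a b^(4+r) q ≈ p a b^(r+2) a^n b² a^n q`.
Proof: `p a b⁴ (b^r q) ≈ p a b⁴ a^n b^r q` ((I) with `w = b²`) `≈ p a b² a^n b² a^n b^r q` ((I) with `w = b`).  Let
`Z = (b² a^n)(b² a^n)`; `Z b ≈ b Z`: `Z b = b (b a^n b)(b a^n b)`.. precisely `Z = b · (b a^n) · b · (b a^n) ≈
(b a^n) b (b a^n) b` (`ic` with `X = b`, `Y = b a^n`), so `b Z ≈ b b a^n b b a^n b = Z b`.  Hence `Z b^r ≈ b^r Z`
(induction), and `p a Z b^r q ≈ p a b^r Z q = p a b^(r+2) a^n b² a^n q`.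
Now `p a b^(4+r) q ≈ p a b^(r+2) a^n b² a^n q` and, with `a^n q` in place of `q`,
`p a b^(4+r) a^n q ≈ p a b^(r+2) a^n b² a^(2n) q ≈ p a b^(r+2) a^n b² a^n q` (`a^(2n) q ≈ a^n q`: IDN for one `a` of `a^n`,
`m = 1`).  So `p a b^(4+r) q ≈ p a b^(4+r) a^n q`.  Finally IDN: `b ≈ b^(4n+1)` (`m = 4`) on both sides
(`4n + 1 = 4 + r`). -/
def EwnStmt : Prop :=
  ∀ (n : ℕ) (β : FIC), ClW n β → ∀ (p q : List ℕ) (a b : ℕ), a ∈ q → (b ∈ p ∨ b ∈ q) →
    RR β (p ++ a :: b :: q) (p ++ a :: b :: (List.replicate n a ++ q))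

/-- **ELN** (uses IDN, EWN).  The same with a word `w` of multiple letters instead of `b`.
PROOF.  Induction on `w`, `p` general.  `w = []`: IDN (`m = 1`).  `w = b :: w'`:
`p a b w' q ≈ p a b a^n w' q` (EWN; `a ∈ w' ++ q`; if `b ≠ a` then `b` occurs in `p` or in `w' ++ q` because its
count is `≥ 2`; if `b = a` then `b ∈ q`) `≈ p a b a^n w' a^n q` (induction for the prefix `p ++ [a, b] ++ a^(n-1)` and
its next letter `a`) `≈ p a b w' a^n q` (EWN backwards). -/
def ElnStmt : Prop :=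
  ∀ (n : ℕ) (β : FIC), ClW n β → ∀ (w p q : List ℕ) (a : ℕ), a ∈ q →
    (∀ c ∈ w, 2 ≤ (p ++ a :: (w ++ q)).count c) →
      RR β (p ++ a :: (w ++ q)) (p ++ a :: (w ++ (List.replicate n a ++ q)))

/-- **SHN** (uses IDN, ELN).  An occurrence of `x` between two others (the first one separated by multiple
letters, the second one anywhere) commutes with its neighbour.
PROOF.  If `b = x`: trivial.  Note: `x ∈ q`; all words below have the form `p x u ..` with multiple letters, so by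
ELN `x^n` can be inserted or deleted at every place behind the first `x` (before `q`), and by IDN the letters
`x`, `b` can be raised.  Let `c = b^n`.  RULES (words `A`, any context): (L) `(A x^n)(A x^n) ≈ (A x^(n+1))(A x^(n-1))`: `f1`
with `0 ↦ A x^(n-1)`, `1 ↦ [x]`: `XYXY ≈ XYYX`.  (R) `(x^n A)(x^n A) ≈ (x^(n-1) A)(x^(n+1) A)`: `f0` with `0 ↦ [x]`,
`1 ↦ x^(n-1) A`: `XYXY ≈ YXXY`.
`p x u b x q ≈ p x u b^(2n+1) x^(n+1) q` (IDN for `b`, `m = 2`, and for `x`, `m = 1`; `x ∈ q`)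
`≈ p x u x^n b x^n c x^n c x^(n+1) q` (ELN) `≈ p x u x^n b x^n c x^(n+1) c x^n q` (L for `A = c`, the last `x` stays
behind) `≈ p x u x^n b x^(n+1) c x^n c x^n q` (R for `A = c`: `x (x^(n-1) c)(x^(n+1) c) ≈ x (x^n c)(x^n c)`)
`≈ p x u x^(n+1) b x^n c' ..`: R for `A = b` (`c = b b^(n-1)`: `x^n b x^(n+1) b = x (x^(n-1) b)(x^(n+1) b) ≈
x (x^n b)(x^n b) = x^(n+1) b x^n b`): `p x u x^(n+1) b x^n b b^(n-1) x^n c x^n q ≈ p x u x b^(2n+1) q` (ELN: delete the
four `x^n`) `≈ p x u x b q` (IDN). -/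
def ShnStmt : Prop :=
  ∀ (n : ℕ) (β : FIC), ClW n β → ∀ (p u q : List ℕ) (x b : ℕ), x ∈ q →
    (∀ c, c ∈ u ∨ c = b → 2 ≤ (p ++ x :: (u ++ b :: x :: q)).count c) →
      RR β (p ++ x :: (u ++ b :: x :: q)) (p ++ x :: (u ++ x :: b :: q))

/-- **BSW** (uses IDN, CPF, SHN).  The base of the two letter principle for the class W.
PROOF.  `pos`, `ap`, `be` given.  `rr`: `be` with `1 ↦ [0, 2]`: `[0,0,2,0] ≈ 0^(n+1) 0 2 0^(n+1)`, and
`0^(n+2) ≈ [0,0]`.  `ic`: `f0`, and `f1` with the letters exchanged.  `cap`: CPF.  `itn.one`: IDN (`m = 1`).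
`itn.two`: `p x w x w' x q ≈ p x x w w' x q`: move the middle `x` to the left through the letters of `w` one after
the other (induction on `w` from the right: `w = w0 ++ [b]`, SHN with `u = w0` and `q := w' ++ x :: q`; the counts
of the letters do not change). -/
def BswStmt : Prop := ∀ (n : ℕ) (β : FIC), ClW n β → ClXn n β

/-- **XCN** (uses MWS.BLR, MWS.XCW, IDN, ELN, SHN, BSW).  The class W has the visibility relation `VW`.
PROOF.  `VisOk VW` is the first part of MWS.XCW.  `ClXn` by BSW.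
`xch`: `C i = A ++ x :: y :: D`, `x ∈ A`, `x ∉ D`, `y ∉ A`, `y ∈ D`.  The letters of the blocks are multiple in the
word, also in all words below.
(1) `x ∈ C j` for some `i < j ≤ k`: `A = A1 ++ x :: A2`; SHN backwards with `u = A2`, `b = y`, `q = D ++ suf`
(`x ∈ q`): `.. x A2 x y D .. ≈ .. x A2 y x D ..`.
(2) Otherwise `VW k (ty C x) (ty C y) i` holds, so `TE θ k (ty C x) (ty C y) i`.  Choose `e`, `P j`, `Q j` for `j ≤ k`,
`j ≠ i` such that `C j` can be replaced by `P j ++ X j ++ Q j`, where `X j` is `bl (hv (ty C x j)) (hv (ty C y j)) (e j)`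
with `0 ↦ x`, `1 ↦ y`, in every context which contains the other blocks: if neither `x` nor `y` is in `C j`: `P j = C j`,
`Q j = []`, `X j = []`.  Only `x` (only `y`): `C j = P ++ x :: Q`, IDN (`m = 1`): `x^(n+1) = x^(n-1) ++ [x,x]`,
`P j = P ++ x^(n-1)`.  Both (then `j < i`, since `x` does not occur behind `i`): let
`C j = P1 ++ x :: (P2 ++ y :: Q)` with `y ∉ P1 ++ x :: P2` (the first `x` is before the first `y`): ELN (`w = P2 ++ [y]`,
`x ∈ C i` is behind) inserts `x^n`, and again `x^n`, behind this `y`; IDN for `y`: the block is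
`P1 ++ x :: (P2 ++ (y^(n-1) ++ [y,y,x,x] ++ (x^(2n-2) ++ Q)))`, `e j = true`; if the first `y` is before the first
`x`: exchange the roles (`y ∈ C i`), `X j = [x,x,y,y]`, `e j = false`.  In block `i`: IDN:
`A ++ x^(n-1) ++ [x,x,y,y] ++ y^(n-1) ++ D`.  BLR (with `θ = β`) replaces all blocks.  `rr_ins` for `TE` at `e` with
`h 0 = [x]`, `h 1 = [y]` gives in `θ` the same word with `A ++ x^(n-1) ++ [x,y,x,y] ++ y^(n-1) ++ D` in block `i`.
Go back in the other blocks.  In block `i`: `A x^n y x y^n D ≈ A y x y^n D` (`itn`: `x ∈ A`, `x^n` in front of `y`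
and an `x` behind: move it next to the `x` of `A` by `two` (or SHN), delete it by `one`) `≈ A y x D` (`y^n` stands
between the first `y` and a `y` of `D`: the same). -/
def XcnStmt : Prop := ∀ (n : ℕ) (β : FIC), ClW n β → ClVn n VW β

/-- **W1N** (uses MWS.XCW, DSN, XCN).  The lattice above W is distributive.  PROOF.  `VisOk VW` is the first
part of MWS.XCW; DSN, XCN. -/
def W1nStmt : Prop := ∀ (n : ℕ) (β : FIC), ClW n β → DistF β

/-! ### the class B -/

/-- **XBN** (uses MWS.BLR, IDN, CPF).  The class B has the visibility relation `VB`.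
PROOF.  `ClXn`: `rr` as in BSW; `f0`: `dd` with `p = []`, `q = [0,1]`, `c = [0,1]`: `[0,1,0,1] ≈ [1,0,0,1]`, `f1`: `dd` with
`p = [0,1]`: `[0,1,0,1] ≈ [0,1,1,0]`; `ic` and `cap` (CPF) from them; `itn` given.
`xch`: (1) `x, y ∈ C j` for some `j ≤ k`, `j ≠ i`: `dd` with `c = C j` (`asm_split`; `C j` is a factor of the word
before or behind the block `i`: `pre_split`, `suf_split`).
(2) Otherwise `VB k (ty C x) (ty C y) i`, so `TE θ k (ty C x) (ty C y) i`.  For `j ≤ k`, `j ≠ i` at most one of `x`, `y`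
is in `C j`; raise one occurrence (IDN, `m = 1`): `C j = P ++ x :: Q` becomes `P ++ x^(n-1) ++ [x,x] ++ Q` (or the same
with `y`, or `P = C j`, `Q = []`).  Block `i`: `A ++ x^(n-1) ++ [x,x,y,y] ++ y^(n-1) ++ D`.  BLR replaces all blocks;
`rr_ins` for `TE` (any `e`) gives `A ++ x^(n-1) ++ [x,y,x,y] ++ y^(n-1) ++ D`; go back; `itn` as in XCN. -/
def XbnStmt : Prop := ∀ (n : ℕ) (β : FIC), ClB n β → ClVn n VB β

/-- **B2N** (uses MWS.XCB, DSN, XBN).  The lattice above B is distributive.  PROOF.  `VisOk VB` is the first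
part of MWS.XCB; DSN, XBN. -/
def B2nStmt : Prop := ∀ (n : ℕ) (β : FIC), ClB n β → DistF β

end Pool.Agent.MWBN
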